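import Pool.Agent.KS6_73.BT.Walsh
import Pool.Agent.KS6_73.BT.Tail

/-!
# MP_5641ff_co: XORs of boundedly many functions with few Walsh coefficients

For fixed `s` and `k`, only `2 ^ (o(1) 2 ^ n)` Boolean functions of `n` variables are XORs of at
most `k` functions having at most `s` distinct Walsh coefficients (bent functions have at most
two, plateaued functions at most three).  Hence, for fixed `s`, `k` and `c` and all large `n`,
almost no function of degree at most `n / 2 - c √n` is such an XOR.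
-/

set_option autoImplicit false

namespace Pool.Agent.Results.MP_5641ff_co.FewWalshSums

open Finset KS6_73.BT Pool.Agent.Helper291.Bent

/-- Boolean functions of `n` variables. -/
abbrev BF (n : ℕ) : Type := (Fin n → ZMod 2) → ZMod 2

/-- The Walsh coefficient `W_f(a) = ∑_x (-1) ^ (f(x) + ⟨a, x⟩)`. -/
def W (n : ℕ) (f : BF n) (a : Fin n → ZMod 2) : ℤ :=
  ∑ x : Fin n → ZMod 2, (-1 : ℤ) ^ ((f x + ∑ i, a i * x i).val)

/-- `f` is bent: every Walsh coefficient has square `2 ^ n` (i.e. absolute value `2 ^ (n/2)`). -/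
def Bent (n : ℕ) (f : BF n) : Prop := ∀ a, (W n f a) ^ 2 = 2 ^ n

/-- `f` has algebraic degree at most `d`. -/
def DegLE (n d : ℕ) (f : BF n) : Prop :=
  ∃ p : MvPolynomial (Fin n) (ZMod 2), p.totalDegree ≤ d ∧ ∀ x, MvPolynomial.eval x p = f x

/-- `f` is the XOR of at most `k` functions with the property `P`. -/
def XorOf (n k : ℕ) (P : BF n → Prop) (f : BF n) : Prop :=
  ∃ j ≤ k, ∃ g : Fin j → BF n, (∀ i, P (g i)) ∧ ∀ x, f x = ∑ i, g i x

lemma xor_card (n k : ℕ) (P : BF n → Prop) (R : ℝ) (hR : 1 ≤ R)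
    (h : (Nat.card {f : BF n // P f} : ℝ) ≤ R) :
    (Nat.card {f : BF n // XorOf n k P f} : ℝ) ≤ (k + 1) * R ^ k := by
  classical
  have hex : ∀ f : {f : BF n // XorOf n k P f}, ∃ j : Fin (k + 1), ∃ g : Fin j → {f : BF n // P f},
      ∀ x, f.1 x = ∑ i, (g i).1 x := by
    rintro ⟨f, j, hj, g, hg, hf⟩
    exact ⟨⟨j, by omega⟩, fun i => ⟨g i, hg i⟩, hf⟩
  choose j g hg using hex
  let Φ : {f : BF n // XorOf n k P f} → (Σ j : Fin (k + 1), (Fin j → {f : BF n // P f})) :=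
    fun f => ⟨j f, g f⟩
  have hΦ : Function.Injective Φ := by
    intro f f' hff
    apply Subtype.ext
    funext x
    rw [hg f x, hg f' x]
    have key : ∀ u v : (Σ j : Fin (k + 1), (Fin j → {f : BF n // P f})), u = v →
        ∑ i, (u.2 i).1 x = ∑ i, (v.2 i).1 x := by
      rintro u _ rfl; rfl
    exact key _ _ hff
  have h1 := Nat.card_le_card_of_injective Φ hΦ
  rw [Nat.card_sigma] at h1
  have h2 : (Nat.card {f : BF n // XorOf n k P f} : ℝ) ≤ ∑ _j : Fin (k + 1), R ^ k := by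
    refine (Nat.cast_le.2 h1).trans ?_
    push_cast
    apply Finset.sum_le_sum
    intro j _
    rw [Nat.card_fun, Nat.card_eq_fintype_card (α := Fin (j : ℕ)), Fintype.card_fin]
    push_cast
    calc (Nat.card {f : BF n // P f} : ℝ) ^ (j : ℕ) ≤ R ^ (j : ℕ) :=
          pow_le_pow_left₀ (by positivity) h _
      _ ≤ R ^ k := pow_le_pow_right₀ hR (by have := j.2; omega)
  rw [Finset.sum_const, Finset.card_univ, Fintype.card_fin, nsmul_eq_mul] at h2
  push_cast at h2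
  exact h2

lemma xor_card' (k : ℕ) (ε : ℝ) (hε : 0 < ε) : ∃ n₁ : ℕ, ∀ n : ℕ, n₁ ≤ n → ∀ P : BF n → Prop,
    (Nat.card {f : BF n // P f} : ℝ) ≤ (2 : ℝ) ^ (ε / (2 * (k + 1)) * 2 ^ n) →
    (Nat.card {f : BF n // XorOf n k P f} : ℝ) ≤ (2 : ℝ) ^ (ε * 2 ^ n) := by
  obtain ⟨n₁, hn₁⟩ := eventually_small (k + 1) (ε / 2) (by linarith)
  refine ⟨n₁, fun n hn P hP => ?_⟩
  have hk : (0 : ℝ) < (k : ℝ) + 1 := by positivity
  have h1 : (1 : ℝ) ≤ (2 : ℝ) ^ (ε / (2 * (k + 1)) * 2 ^ n) :=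
    Real.one_le_rpow (by norm_num) (by positivity)
  refine (xor_card n k P _ h1 hP).trans ?_
  have h2 : ((k : ℝ) + 1) ≤ (2 : ℝ) ^ (ε / 2 * 2 ^ n) := by
    have h3 : ((k : ℝ) + 1) ≤ (2 : ℝ) ^ ((k : ℝ) + 1) := by
      have h4 : k + 1 < 2 ^ (k + 1) := Nat.lt_two_pow_self
      have h5 : ((k + 1 : ℕ) : ℝ) ≤ ((2 ^ (k + 1) : ℕ) : ℝ) := Nat.cast_le.2 h4.le
      rw [Nat.cast_pow, ← Real.rpow_natCast] at h5
      push_cast at h5
      exact h5
    refine h3.trans (Real.rpow_le_rpow_of_exponent_le (by norm_num) ?_)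
    refine le_trans ?_ (hn₁ n hn)
    push_cast
    have h6 : (0 : ℝ) ≤ n := Nat.cast_nonneg n
    nlinarith
  have h7 : ((2 : ℝ) ^ (ε / (2 * (k + 1)) * 2 ^ n)) ^ k ≤ (2 : ℝ) ^ (ε / 2 * 2 ^ n) := by
    rw [← Real.rpow_natCast, ← Real.rpow_mul (by norm_num)]
    apply Real.rpow_le_rpow_of_exponent_le (by norm_num)
    have h8 : ε / (2 * (k + 1)) * 2 ^ n * k = (ε / 2 * 2 ^ n) * (k / (k + 1)) := by
      field_simp
    rw [h8]
    have h9 : (k : ℝ) / (k + 1) ≤ 1 := by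
      rw [div_le_one hk]; linarith
    have h10 : (0 : ℝ) ≤ ε / 2 * 2 ^ n := by positivity
    nlinarith
  calc ((k : ℝ) + 1) * ((2 : ℝ) ^ (ε / (2 * (k + 1)) * 2 ^ n)) ^ k
      ≤ (2 : ℝ) ^ (ε / 2 * 2 ^ n) * (2 : ℝ) ^ (ε / 2 * 2 ^ n) :=
        mul_le_mul h2 h7 (by positivity) (by positivity)
    _ = (2 : ℝ) ^ (ε * 2 ^ n) := by
        rw [← Real.rpow_add (by norm_num)]
        congr 1
        ring

/-- a bent function of an even number of variables has at most two distinct Walsh coefficients -/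
lemma bent_few (n : ℕ) (f : BF n) (hf : Bent n f) : (Set.range (W n f)).ncard ≤ 2 := by
  classical
  have hsub : Set.range (W n f) ⊆ ({W n f 0, -(W n f 0)} : Finset ℤ) := by
    rintro _ ⟨a, rfl⟩
    have h1 := hf a
    have h2 := hf 0
    have h3 : (W n f a) ^ 2 = (W n f 0) ^ 2 := by rw [h1, h2]
    rcases sq_eq_sq_iff_eq_or_eq_neg.1 h3 with h | h
    · simp [h]
    · simp [h]
  refine (Set.ncard_le_ncard hsub (Finset.finite_toSet _)).trans ?_
  rw [Set.ncard_coe_finset]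
  exact Finset.card_le_two

/-- there are `2 ^ #{S : |S| ≤ d}` functions of degree at most `d` -/
lemma card_deg (n d : ℕ) : 2 ^ (Fintype.card {S : Finset (Fin n) // S.card ≤ d}) ≤
    Nat.card {f : BF n // DegLE n d f} := by
  classical
  let Φ : ({S : Finset (Fin n) // S.card ≤ d} → ZMod 2) → {f : BF n // DegLE n d f} :=
    fun a => ⟨fun x => MvPolynomial.eval x (J6.mkPoly a), J6.mkPoly a, J6.mkPoly_totalDegree a,
      fun _ => rfl⟩
  have hinj : Function.Injective Φ := by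
    intro a b hab
    have h1 : (fun x => MvPolynomial.eval x (J6.mkPoly a)) =
        fun x => MvPolynomial.eval x (J6.mkPoly b) := congrArg Subtype.val hab
    apply J6.inj_aux
    intro T
    rw [← J6.eval_mkPoly, ← J6.eval_mkPoly]
    exact congrFun h1 _
  have hcard := Nat.card_le_card_of_injective Φ hinj
  refine le_trans ?_ hcard
  rw [Nat.card_eq_fintype_card, Fintype.card_fun, ZMod.card]

/-- from a proportion less than one to the existence of an exception -/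
lemma exists_of_prop (n : ℕ) (D P : BF n → Prop) (hD : ∃ f, D f) (t : ℝ) (ht : t < 0)
    (h : (Nat.card {f : BF n // D f ∧ P f} : ℝ) ≤ (2 : ℝ) ^ t * (Nat.card {f : BF n // D f} : ℝ)) :
    ∃ f, D f ∧ ¬ P f := by
  by_contra hcon
  push Not at hcon
  have h2 : Nat.card {f : BF n // D f} ≤ Nat.card {f : BF n // D f ∧ P f} := by
    apply Nat.card_le_card_of_injective (fun f => (⟨f.1, f.2, hcon f.1 f.2⟩ :
      {f : BF n // D f ∧ P f}))
    intro f f' hff
    exact Subtype.ext (congrArg (fun z => z.1) hff)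
  have h3 : (0 : ℝ) < (Nat.card {f : BF n // D f} : ℝ) := by
    obtain ⟨f, hf⟩ := hD
    have : Nonempty {f : BF n // D f} := ⟨⟨f, hf⟩⟩
    exact_mod_cast Nat.card_pos
  have h4 : (2 : ℝ) ^ t < 1 := Real.rpow_lt_one_of_one_lt_of_neg (by norm_num) ht
  have h5 : (Nat.card {f : BF n // D f} : ℝ) ≤ (Nat.card {f : BF n // D f ∧ P f} : ℝ) :=
    Nat.cast_le.2 h2
  nlinarith

/-- the property of having at most `s` distinct Walsh coefficients -/
def FewWalsh (n s : ℕ) (g : BF n) : Prop := (Set.range (W n g)).ncard ≤ s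

/-- **Main theorem.** (1) For all `s, k` and `ε > 0`, if `n` is large, at most `2 ^ (ε 2 ^ n)` of
the `2 ^ (2 ^ n)` Boolean functions of `n` variables are XORs of at most `k` functions each having
at most `s` distinct Walsh coefficients.
(2) For all `s, k` and `c` there is `δ > 0` such that for all large `n` and every
`d ≥ n / 2 - c √n`, among the Boolean functions of `n` variables of degree at most `d` only a
proportion of at most `2 ^ (-δ 2 ^ n)` are XORs of at most `k` functions each having at most `s`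
distinct Walsh coefficients, and some function of degree at most `d` is not such an XOR.
(3) For all `k` and `ε > 0`, if `m` is large, among the Boolean functions of `2m` variables of
degree at most `m` only a proportion of at most `2 ^ (-(1/2 - ε) 2 ^ (2m))` are XORs of at most
`k` bent functions, and some function of degree at most `m` is not such an XOR. -/
theorem result :
    (∀ (s k : ℕ) (ε : ℝ), 0 < ε → ∃ n₀ : ℕ, ∀ n : ℕ, n₀ ≤ n →
      (Nat.card {f : BF n // XorOf n k (FewWalsh n s) f} : ℝ) ≤ (2 : ℝ) ^ (ε * 2 ^ n)) ∧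
    (∀ (s k : ℕ) (c : ℝ), ∃ δ : ℝ, 0 < δ ∧ ∃ n₀ : ℕ, ∀ n : ℕ, n₀ ≤ n →
      ∀ d : ℕ, (n : ℝ) / 2 - c * Real.sqrt n ≤ d →
      (Nat.card {f : BF n // DegLE n d f ∧ XorOf n k (FewWalsh n s) f} : ℝ)
        ≤ (2 : ℝ) ^ (-δ * 2 ^ n) * (Nat.card {f : BF n // DegLE n d f} : ℝ) ∧
      ∃ f : BF n, DegLE n d f ∧ ¬ XorOf n k (FewWalsh n s) f) ∧
    (∀ (k : ℕ) (ε : ℝ), 0 < ε → ∃ m₀ : ℕ, ∀ m : ℕ, m₀ ≤ m →
      (Nat.card {f : BF (2 * m) // DegLE (2 * m) m f ∧ XorOf (2 * m) k (Bent (2 * m)) f} : ℝ)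
        ≤ (2 : ℝ) ^ (-(1 / 2 - ε) * 2 ^ (2 * m)) *
          (Nat.card {f : BF (2 * m) // DegLE (2 * m) m f} : ℝ) ∧
      ∃ f : BF (2 * m), DegLE (2 * m) m f ∧ ¬ XorOf (2 * m) k (Bent (2 * m)) f) := by
  classical
  have H1 : ∀ (s k : ℕ) (ε : ℝ), 0 < ε → ∃ n₀ : ℕ, ∀ n : ℕ, n₀ ≤ n →
      (Nat.card {f : BF n // XorOf n k (FewWalsh n s) f} : ℝ) ≤ (2 : ℝ) ^ (ε * 2 ^ n) := by
    intro s k ε hε
    obtain ⟨n₁, hn₁⟩ := xor_card' k ε hε
    obtain ⟨n₂, hn₂⟩ := few s (ε / (2 * (k + 1))) (by positivity)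
    exact ⟨max n₁ n₂, fun n hn => hn₁ n ((le_max_left _ _).trans hn) _
      (hn₂ n ((le_max_right _ _).trans hn))⟩
  have hne : ∀ n d : ℕ, ∃ f : BF n, DegLE n d f := fun n d => ⟨fun _ => 0, 0, by simp, by simp⟩
  have H2 : ∀ (s k : ℕ) (c : ℝ), ∃ δ : ℝ, 0 < δ ∧ ∃ n₀ : ℕ, ∀ n : ℕ, n₀ ≤ n →
      ∀ d : ℕ, (n : ℝ) / 2 - c * Real.sqrt n ≤ d →
      (Nat.card {f : BF n // DegLE n d f ∧ XorOf n k (FewWalsh n s) f} : ℝ)
        ≤ (2 : ℝ) ^ (-δ * 2 ^ n) * (Nat.card {f : BF n // DegLE n d f} : ℝ) := by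
    intro s k c
    obtain ⟨a, ha, n₁, hn₁⟩ := tail (max c 0) (le_max_right _ _)
    obtain ⟨n₂, hn₂⟩ := H1 s k (a / 2) (by positivity)
    refine ⟨a / 2, by positivity, max n₁ n₂, fun n hn d hd => ?_⟩
    have h1 := hn₁ n ((le_max_left _ _).trans hn) d (by
      refine le_trans ?_ hd
      have := mul_le_mul_of_nonneg_right (le_max_left c 0) (Real.sqrt_nonneg n)
      linarith)
    have h2 := hn₂ n ((le_max_right _ _).trans hn)
    have h3 : (2 : ℝ) ^ (a * 2 ^ n) ≤ (Nat.card {f : BF n // DegLE n d f} : ℝ) := by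
      refine le_trans ?_ (Nat.cast_le.2 (card_deg n d))
      have h5 : ((2 ^ (Fintype.card {S : Finset (Fin n) // S.card ≤ d}) : ℕ) : ℝ) =
          (2 : ℝ) ^ ((Fintype.card {S : Finset (Fin n) // S.card ≤ d} : ℕ) : ℝ) := by
        rw [Real.rpow_natCast]; push_cast; rfl
      rw [h5]
      exact Real.rpow_le_rpow_of_exponent_le (by norm_num) h1
    have h4 : (Nat.card {f : BF n // DegLE n d f ∧ XorOf n k (FewWalsh n s) f} : ℝ) ≤
        (Nat.card {f : BF n // XorOf n k (FewWalsh n s) f} : ℝ) := by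
      refine Nat.cast_le.2 ?_
      apply Nat.card_le_card_of_injective (fun f => (⟨f.1, f.2.2⟩ :
        {f : BF n // XorOf n k (FewWalsh n s) f}))
      intro f f' hff
      exact Subtype.ext (congrArg (fun z => z.1) hff)
    refine (h4.trans h2).trans ?_
    calc (2 : ℝ) ^ (a / 2 * 2 ^ n) = (2 : ℝ) ^ (-(a / 2) * 2 ^ n) * (2 : ℝ) ^ (a * 2 ^ n) := by
          rw [← Real.rpow_add (by norm_num)]
          congr 1
          ring
      _ ≤ _ := mul_le_mul_of_nonneg_left h3 (by positivity)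
  have H3 : ∀ (k : ℕ) (ε : ℝ), 0 < ε → ∃ m₀ : ℕ, ∀ m : ℕ, m₀ ≤ m →
      (Nat.card {f : BF (2 * m) // DegLE (2 * m) m f ∧ XorOf (2 * m) k (Bent (2 * m)) f} : ℝ)
        ≤ (2 : ℝ) ^ (-(1 / 2 - ε) * 2 ^ (2 * m)) *
          (Nat.card {f : BF (2 * m) // DegLE (2 * m) m f} : ℝ) := by
    intro k ε hε
    obtain ⟨n₀, hn₀⟩ := H1 2 k ε hε
    refine ⟨max n₀ 1, fun m hm => ?_⟩
    have hm1 : 1 ≤ m := (le_max_right _ _).trans hm
    have hmn : n₀ ≤ 2 * m := by have := (le_max_left n₀ 1).trans hm; omega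
    have h1 := J6.card_lowdeg m hm1
    have h2 : ((2 ^ (2 ^ (2 * m - 1)) : ℕ) : ℝ) ≤
        (Nat.card {f : BF (2 * m) // DegLE (2 * m) m f} : ℝ) := Nat.cast_le.2 h1
    have h3 : ((2 ^ (2 ^ (2 * m - 1)) : ℕ) : ℝ) = (2 : ℝ) ^ ((1 / 2 : ℝ) * 2 ^ (2 * m)) := by
      push_cast
      rw [← Real.rpow_natCast]
      congr 1
      push_cast
      obtain ⟨q, hq⟩ : ∃ q, 2 * m = q + 1 := ⟨2 * m - 1, by omega⟩
      rw [hq, Nat.add_sub_cancel, pow_succ]
      ring
    rw [h3] at h2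
    have h4 : (Nat.card {f : BF (2 * m) // DegLE (2 * m) m f ∧
        XorOf (2 * m) k (Bent (2 * m)) f} : ℝ) ≤ (2 : ℝ) ^ (ε * 2 ^ (2 * m)) := by
      refine le_trans (Nat.cast_le.2 ?_) (hn₀ (2 * m) hmn)
      apply Nat.card_le_card_of_injective (fun f => (⟨f.1, by
        obtain ⟨j, hj, g, hg, hf⟩ := f.2.2
        exact ⟨j, hj, g, fun i => bent_few _ _ (hg i), hf⟩⟩ :
          {f : BF (2 * m) // XorOf (2 * m) k (FewWalsh (2 * m) 2) f}))
      intro f f' hff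
      exact Subtype.ext (congrArg (fun z => z.1) hff)
    refine h4.trans ?_
    calc (2 : ℝ) ^ (ε * 2 ^ (2 * m))
        = (2 : ℝ) ^ (-(1 / 2 - ε) * 2 ^ (2 * m)) * (2 : ℝ) ^ ((1 / 2 : ℝ) * 2 ^ (2 * m)) := by
          rw [← Real.rpow_add (by norm_num)]
          congr 1
          ring
      _ ≤ _ := mul_le_mul_of_nonneg_left h2 (by positivity)
  refine ⟨H1, ?_, ?_⟩
  · intro s k c
    obtain ⟨δ, hδ, n₀, h⟩ := H2 s k c
    refine ⟨δ, hδ, n₀, fun n hn d hd => ⟨h n hn d hd, ?_⟩⟩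
    refine exists_of_prop n _ _ (hne n d) (-δ * 2 ^ n) ?_ (h n hn d hd)
    have : (0 : ℝ) < 2 ^ n := by positivity
    nlinarith
  · intro k ε hε
    obtain ⟨m₀, h⟩ := H3 k ε hε
    obtain ⟨m₁, h'⟩ := H3 k (1 / 4) (by norm_num)
    refine ⟨max m₀ m₁, fun m hm => ⟨h m ((le_max_left _ _).trans hm), ?_⟩⟩
    refine exists_of_prop (2 * m) _ _ (hne _ _) (-(1 / 2 - 1 / 4) * 2 ^ (2 * m)) ?_
      (h' m ((le_max_right _ _).trans hm))
    have : (0 : ℝ) < 2 ^ (2 * m) := by positivity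
    nlinarith

end Pool.Agent.Results.MP_5641ff_co.FewWalshSums
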